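import Mathlib
import Pool.Agent.TH407.MZ.Defs
import Pool.Agent.H153R4.Pl

set_option autoImplicit false

/-! Plancherel on an arc, and the Agmon-Hormander bound for the circle. -/

namespace Pool.Agent.TH11.MZ

open MeasureTheory Set Complex
open scoped ENNReal NNReal Real FourierTransform

lemma phase_norm (x : ℝ) : ‖cexp (-(I * (x : ℂ)))‖ = 1 := by
  have : (-(I * (x : ℂ))) = ((-x : ℝ) : ℂ) * I := by
    push_cast
    ring
  rw [this, Complex.norm_exp_ofReal_mul_I]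

lemma phase_enorm (x : ℝ) : ‖cexp (-(I * (x : ℂ)))‖ₑ = 1 := by
  rw [← ofReal_norm, phase_norm, ENNReal.ofReal_one]

lemma cs {α : Type*} [MeasurableSpace α] {μ : Measure α} {F G : α → ℝ≥0∞} (hF : AEMeasurable F μ)
    (hG : AEMeasurable G μ) :
    (∫⁻ a, F a * G a ∂μ) ^ 2 ≤ (∫⁻ a, F a ^ 2 ∂μ) * ∫⁻ a, G a ^ 2 ∂μ := by
  have h := ENNReal.lintegral_mul_le_Lp_mul_Lq μ Real.HolderConjugate.two_two hF hG
  refine (pow_le_pow_left' h 2).trans (le_of_eq ?_)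
  rw [mul_pow, ← ENNReal.rpow_natCast, ← ENNReal.rpow_natCast, ← ENNReal.rpow_mul,
    ← ENNReal.rpow_mul]
  norm_num

lemma lint_scale {a : ℝ} (ha : a ≠ 0) (f : ℝ → ℝ≥0∞) :
    ∫⁻ x, f x = ENNReal.ofReal |a| * ∫⁻ x, f (a * x) := by
  conv_lhs => rw [← Real.smul_map_volume_mul_left ha]
  rw [lintegral_smul_measure, smul_eq_mul]
  congr 1
  exact (Homeomorph.mulLeft₀ a ha).toMeasurableEquiv.measurableEmbedding.lintegral_map f

lemma memLp2_of {f : ℝ → ℂ} (hm : AEStronglyMeasurable f volume) (h : ∫⁻ x, ‖f x‖ₑ ^ 2 ≠ ∞) :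
    MemLp f 2 := by
  refine ⟨hm, ?_⟩
  rw [eLpNorm_lt_top_iff_lintegral_rpow_enorm_lt_top (by norm_num) (by norm_num)]
  simp only [ENNReal.toReal_ofNat, ENNReal.rpow_ofNat]
  exact lt_top_iff_ne_top.mpr h

lemma planch0 (P : ℝ → ℂ) (h1 : Integrable P) (h2 : ∫⁻ u, ‖P u‖ₑ ^ 2 ≠ ∞) :
    ∫⁻ x : ℝ, ‖∫ u, cexp (-(I * ((x * u : ℝ) : ℂ))) * P u‖ₑ ^ 2 =
      ENNReal.ofReal (2 * π) * ∫⁻ u, ‖P u‖ₑ ^ 2 := by
  have h3 := Pool.Agent.H153R4.plancherel P h1 (memLp2_of h1.1 h2)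
  have hpi : (0 : ℝ) < 2 * π := by positivity
  rw [lint_scale hpi.ne', ← h3, abs_of_pos hpi]
  congr 1
  refine lintegral_congr fun ξ => ?_
  congr 2
  rw [Real.fourier_eq' P ξ]
  refine integral_congr_ae (ae_of_all _ fun u => ?_)
  simp only [smul_eq_mul]
  congr 2
  simp
  ring

lemma planch_arc {φ φ' : ℝ → ℝ} {J : Set ℝ} (hJ : MeasurableSet J)
    (hφ : ∀ x ∈ J, HasDerivWithinAt φ (φ' x) J x) (hinj : InjOn φ J) {c : ℝ} (hc : 0 < c)
    (hφ' : ∀ x ∈ J, c ≤ |φ' x|) {f : ℝ → ℂ} (hf : IntegrableOn f J)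
    (hf2 : ∫⁻ x in J, ‖f x‖ₑ ^ 2 ≠ ∞) :
    ∫⁻ x : ℝ, ‖∫ θ in J, cexp (-(I * ((x * φ θ : ℝ) : ℂ))) * f θ‖ₑ ^ 2 ≤
      ENNReal.ofReal (2 * π / c) * ∫⁻ θ in J, ‖f θ‖ₑ ^ 2 := by
  classical
  have hJ' : MeasurableSet (φ '' J) :=
    measurable_image_of_fderivWithin hJ (fun x hx => (hφ x hx).hasFDerivWithinAt) hinj
  set ψ : ℝ → ℝ := Function.invFunOn φ J with hψ
  have hψφ : ∀ x ∈ J, ψ (φ x) = x := fun x hx => hinj.leftInvOn_invFunOn hx
  set G : ℝ → ℂ := fun u => ((|φ' (ψ u)|⁻¹ : ℝ) : ℂ) * f (ψ u) with hG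
  have hpos : ∀ x ∈ J, 0 < |φ' x| := fun x hx => hc.trans_le (hφ' x hx)
  have hGφ : ∀ x ∈ J, |φ' x| • G (φ x) = f x := by
    intro x hx
    simp only [hG, hψφ x hx, Complex.real_smul]
    rw [← mul_assoc, ← Complex.ofReal_mul, mul_inv_cancel₀ (hpos x hx).ne', Complex.ofReal_one,
      one_mul]
  have hGi : IntegrableOn G (φ '' J) := by
    rw [integrableOn_image_iff_integrableOn_abs_deriv_smul hJ hφ hinj]
    exact hf.congr_fun (fun x hx => (hGφ x hx).symm) hJ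
  have hG2 : ∫⁻ u in φ '' J, ‖G u‖ₑ ^ 2 ≤ ENNReal.ofReal (1 / c) * ∫⁻ θ in J, ‖f θ‖ₑ ^ 2 := by
    rw [lintegral_image_eq_lintegral_abs_deriv_mul hJ hφ hinj,
      ← lintegral_const_mul' _ _ ENNReal.ofReal_ne_top]
    refine setLIntegral_mono' hJ fun x hx => ?_
    have h1 := hpos x hx
    have h2 : ‖G (φ x)‖ₑ = ENNReal.ofReal (|φ' x|⁻¹) * ‖f x‖ₑ := by
      simp only [hG, hψφ x hx]
      rw [enorm_mul]
      congr 1
      rw [← ofReal_norm, Complex.norm_real, Real.norm_of_nonneg (inv_nonneg.2 h1.le)]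
    rw [h2, mul_pow, ← mul_assoc, ← ENNReal.ofReal_pow (by positivity),
      ← ENNReal.ofReal_mul h1.le]
    refine mul_le_mul' (ENNReal.ofReal_le_ofReal ?_) le_rfl
    have h3 : |φ' x| * |φ' x|⁻¹ ^ 2 = 1 / |φ' x| := by
      field_simp
    rw [h3]
    exact one_div_le_one_div_of_le hc (hφ' x hx)
  set P : ℝ → ℂ := (φ '' J).indicator G with hP
  have hPi : Integrable P := by
    rw [hP, integrable_indicator_iff hJ']
    exact hGi
  have hP2 : ∫⁻ u, ‖P u‖ₑ ^ 2 = ∫⁻ u in φ '' J, ‖G u‖ₑ ^ 2 := by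
    rw [← lintegral_indicator hJ']
    refine lintegral_congr fun u => ?_
    simp only [hP]
    by_cases hu : u ∈ φ '' J
    · rw [indicator_of_mem hu, indicator_of_mem hu]
    · rw [indicator_of_notMem hu, indicator_of_notMem hu]
      simp
  have hfin : ∫⁻ u, ‖P u‖ₑ ^ 2 ≠ ∞ := by
    rw [hP2]
    exact (hG2.trans_lt (ENNReal.mul_lt_top ENNReal.ofReal_lt_top
      (lt_top_iff_ne_top.2 hf2))).ne
  have hkey : ∀ x : ℝ, ∫ θ in J, cexp (-(I * ((x * φ θ : ℝ) : ℂ))) * f θ =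
      ∫ u, cexp (-(I * ((x * u : ℝ) : ℂ))) * P u := by
    intro x
    have h1 := integral_image_eq_integral_abs_deriv_smul hJ hφ hinj
      (fun u => cexp (-(I * ((x * u : ℝ) : ℂ))) * G u)
    have h2 : ∫ u, cexp (-(I * ((x * u : ℝ) : ℂ))) * P u =
        ∫ u in φ '' J, cexp (-(I * ((x * u : ℝ) : ℂ))) * G u := by
      rw [← integral_indicator hJ']
      refine integral_congr_ae (ae_of_all _ fun u => ?_)
      simp only [hP]
      by_cases hu : u ∈ φ '' J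
      · rw [indicator_of_mem hu, indicator_of_mem hu]
      · rw [indicator_of_notMem hu, indicator_of_notMem hu, mul_zero]
    rw [h2, h1]
    refine setIntegral_congr_fun hJ fun θ hθ => ?_
    rw [← mul_smul_comm, hGφ θ hθ]
  simp only [hkey]
  rw [planch0 P hPi hfin, hP2]
  refine (mul_le_mul' le_rfl hG2).trans (le_of_eq ?_)
  rw [← mul_assoc, ← ENNReal.ofReal_mul (by positivity)]
  congr 2
  ring


open Pool.Agent.TH407.MV (dt)

/-- the extension operator of an arc of the circle of radius `ρ` -/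
noncomputable def TA (J : Set ℝ) (ρ : ℝ) (g : ℝ → ℂ) (X : ℝ × ℝ) : ℂ :=
  ∫ θ in J, cexp (-(I * ((ρ * dt X θ : ℝ) : ℂ))) * g θ

/-- the square -/
def Qs (l : ℝ) : Set (ℝ × ℝ) := {X | |X.1| ≤ l ∧ |X.2| ≤ l}

lemma meas_Qs (l : ℝ) : MeasurableSet (Qs l) := by
  have h1 : MeasurableSet {X : ℝ × ℝ | |X.1| ≤ l} :=
    measurableSet_le (by fun_prop) measurable_const
  have h2 : MeasurableSet {X : ℝ × ℝ | |X.2| ≤ l} :=
    measurableSet_le (by fun_prop) measurable_const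
  exact h1.inter h2

lemma sq_add_le (x y : ℝ≥0∞) : (x + y) ^ 2 ≤ 2 * x ^ 2 + 2 * y ^ 2 := by
  have h := ENNReal.rpow_add_le_mul_rpow_add_rpow x y (p := 2) one_le_two
  norm_num at h
  rw [mul_add] at h
  exact_mod_cast h

lemma meas_dt : Measurable (fun p : (ℝ × ℝ) × ℝ => dt p.1 p.2) := by
  unfold dt
  fun_prop

lemma meas_TA (J : Set ℝ) (ρ : ℝ) {g : ℝ → ℂ} (hg : Measurable g) : Measurable (TA J ρ g) := by
  have hm : StronglyMeasurable (fun p : (ℝ × ℝ) × ℝ =>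
      cexp (-(I * ((ρ * dt p.1 p.2 : ℝ) : ℂ))) * g p.2) := by
    apply Measurable.stronglyMeasurable
    apply Measurable.mul
    · have h1 : Measurable (fun p : (ℝ × ℝ) × ℝ => ρ * dt p.1 p.2) := meas_dt.const_mul ρ
      fun_prop
    · exact hg.comp measurable_snd
  have := hm.integral_prod_right' (ν := (volume : Measure ℝ).restrict J)
  exact this.measurable

/-- the bound for an arc -/
def GoodS (J : Set ℝ) : Prop :=
  ∃ C : ℝ≥0, ∀ ρ l : ℝ, √7 / 4 ≤ ρ → 1 ≤ l → ∀ g : ℝ → ℂ, Measurable g → IntegrableOn g J →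
    ∫⁻ θ in J, ‖g θ‖ₑ ^ 2 ≠ ∞ →
    ∫⁻ X in Qs l, ‖TA J ρ g X‖ₑ ^ 2 ≤ C * ENNReal.ofReal l * ∫⁻ θ in J, ‖g θ‖ₑ ^ 2

lemma good_split {J A : Set ℝ} (hA : MeasurableSet A) (h1 : GoodS (J ∩ A)) (h2 : GoodS (J \ A)) :
    GoodS J := by
  obtain ⟨C1, h1⟩ := h1
  obtain ⟨C2, h2⟩ := h2
  refine ⟨2 * (C1 + C2), fun ρ l hρ hl g hg hgi hg2 => ?_⟩
  have e1 : ∫⁻ θ in J ∩ A, ‖g θ‖ₑ ^ 2 ≤ ∫⁻ θ in J, ‖g θ‖ₑ ^ 2 :=
    lintegral_mono_set inter_subset_left
  have e2 : ∫⁻ θ in J \ A, ‖g θ‖ₑ ^ 2 ≤ ∫⁻ θ in J, ‖g θ‖ₑ ^ 2 :=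
    lintegral_mono_set sdiff_subset
  have h1' := h1 ρ l hρ hl g hg (hgi.mono_set inter_subset_left)
    (e1.trans_lt (lt_top_iff_ne_top.2 hg2)).ne
  have h2' := h2 ρ l hρ hl g hg (hgi.mono_set sdiff_subset)
    (e2.trans_lt (lt_top_iff_ne_top.2 hg2)).ne
  have hsum : ∀ X, TA J ρ g X = TA (J ∩ A) ρ g X + TA (J \ A) ρ g X := by
    intro X
    unfold TA
    have hi : IntegrableOn (fun θ => cexp (-(I * ((ρ * dt X θ : ℝ) : ℂ))) * g θ) J := by
      have hm : Measurable (fun θ => cexp (-(I * ((ρ * dt X θ : ℝ) : ℂ)))) := by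
        have h3 : Measurable (fun θ => ρ * dt X θ) := by
          unfold dt
          fun_prop
        fun_prop
      exact hgi.bdd_mul (c := 1) hm.aestronglyMeasurable (ae_of_all _ fun x => (phase_norm _).le)
    exact (integral_inter_add_sdiff hA hi).symm
  calc ∫⁻ X in Qs l, ‖TA J ρ g X‖ₑ ^ 2
      ≤ ∫⁻ X in Qs l, (2 * ‖TA (J ∩ A) ρ g X‖ₑ ^ 2 + 2 * ‖TA (J \ A) ρ g X‖ₑ ^ 2) := by
        refine lintegral_mono fun X => ?_
        rw [hsum X]
        exact (pow_le_pow_left' (enorm_add_le _ _) 2).trans (sq_add_le _ _)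
    _ = 2 * (∫⁻ X in Qs l, ‖TA (J ∩ A) ρ g X‖ₑ ^ 2) +
        2 * ∫⁻ X in Qs l, ‖TA (J \ A) ρ g X‖ₑ ^ 2 := by
        rw [lintegral_add_left, lintegral_const_mul, lintegral_const_mul]
        · exact ((meas_TA _ ρ hg).enorm.pow_const 2)
        · exact ((meas_TA _ ρ hg).enorm.pow_const 2)
        · exact ((meas_TA _ ρ hg).enorm.pow_const 2).const_mul 2
    _ ≤ 2 * (C1 * ENNReal.ofReal l * ∫⁻ θ in J, ‖g θ‖ₑ ^ 2) +
        2 * (C2 * ENNReal.ofReal l * ∫⁻ θ in J, ‖g θ‖ₑ ^ 2) := by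
        gcongr
        · exact h1'.trans (mul_le_mul' le_rfl e1)
        · exact h2'.trans (mul_le_mul' le_rfl e2)
    _ = _ := by
        push_cast
        ring

/-- the constant of an arc: `8 π` is larger than `2 √2 · 2 π √2 / (√7 / 4)`... -/
lemma const_bound {ρ : ℝ} (hρ : √7 / 4 ≤ ρ) {c : ℝ} (hc : ρ / 2 ≤ c) : 2 * π / c ≤ 32 := by
  have h7 : (2 : ℝ) < √7 := by
    rw [Real.lt_sqrt (by norm_num)]
    norm_num
  have hc0 : 1 / 4 ≤ c := by linarith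
  rw [div_le_iff₀ (by linarith)]
  have := Real.pi_lt_four
  linarith

lemma good_cos {J : Set ℝ} (hJ : MeasurableSet J) (hinj : InjOn Real.cos J)
    (hs : ∀ θ ∈ J, 1 / 4 ≤ Real.sin θ ^ 2) : GoodS J := by
  refine ⟨64, fun ρ l hρ hl g hg hgi hg2 => ?_⟩
  have h7 : (0 : ℝ) < √7 := by positivity
  have hρ0 : 0 < ρ := lt_of_lt_of_le (by positivity) hρ
  have hsub : Qs l ⊆ univ ×ˢ Icc (-l) l := by
    rintro X ⟨-, h2⟩
    exact ⟨mem_univ _, abs_le.1 h2⟩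
  have hm := (meas_TA J ρ hg).enorm.pow_const 2
  have hline : ∀ X2 : ℝ, ∫⁻ X1 : ℝ, ‖TA J ρ g (X1, X2)‖ₑ ^ 2 ≤ 32 * ∫⁻ θ in J, ‖g θ‖ₑ ^ 2 := by
    intro X2
    set f : ℝ → ℂ := fun θ => cexp (-(I * ((ρ * (X2 * Real.sin θ) : ℝ) : ℂ))) * g θ with hf
    have hfn : ∀ θ, ‖f θ‖ₑ = ‖g θ‖ₑ := fun θ => by
      simp only [hf]
      rw [enorm_mul, phase_enorm, one_mul]
    have hfi : IntegrableOn f J :=
      hgi.bdd_mul (c := 1) (by fun_prop) (ae_of_all _ fun x => (phase_norm _).le)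
    have h1 := planch_arc (φ := fun θ => ρ * Real.cos θ) (φ' := fun θ => -(ρ * Real.sin θ)) hJ
      (fun θ _ => by
        have h2 := ((Real.hasDerivAt_cos θ).const_mul ρ).hasDerivWithinAt (s := J)
        simpa using h2)
      (fun x hx y hy hxy => hinj hx hy (mul_left_cancel₀ hρ0.ne' hxy)) (c := ρ / 2)
      (by positivity) (fun θ hθ => by
        have h2 := hs θ hθ
        have h3 : 1 / 2 ≤ |Real.sin θ| := by
          rw [← abs_of_pos (by norm_num : (0 : ℝ) < 1 / 2), ← sq_le_sq]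
          linarith
        rw [abs_neg, abs_mul, abs_of_pos hρ0]
        nlinarith) hfi (by simpa only [hfn] using hg2)
    simp only [hfn] at h1
    refine le_trans (le_of_eq ?_) (h1.trans (mul_le_mul' ?_ le_rfl))
    · refine lintegral_congr fun X1 => ?_
      congr 2
      unfold TA
      refine integral_congr_ae (ae_of_all _ fun θ => ?_)
      simp only [hf, dt]
      rw [← mul_assoc, ← Complex.exp_add]
      congr 2
      push_cast
      ring
    · have h2 := const_bound hρ (le_refl (ρ / 2))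
      calc ENNReal.ofReal (2 * π / (ρ / 2)) ≤ ENNReal.ofReal 32 := ENNReal.ofReal_le_ofReal h2
        _ = 32 := by norm_num
  calc ∫⁻ X in Qs l, ‖TA J ρ g X‖ₑ ^ 2 ≤ ∫⁻ X in univ ×ˢ Icc (-l) l, ‖TA J ρ g X‖ₑ ^ 2 :=
        lintegral_mono_set hsub
    _ = ∫⁻ X2 in Icc (-l) l, ∫⁻ X1 : ℝ, ‖TA J ρ g (X1, X2)‖ₑ ^ 2 := by
        rw [Measure.volume_eq_prod, ← Measure.prod_restrict, Measure.restrict_univ,
          lintegral_prod_symm _ hm.aemeasurable]
    _ ≤ ∫⁻ _X2 in Icc (-l) l, 32 * ∫⁻ θ in J, ‖g θ‖ₑ ^ 2 := lintegral_mono fun X2 => hline X2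
    _ = (64 : ℝ≥0) * ENNReal.ofReal l * ∫⁻ θ in J, ‖g θ‖ₑ ^ 2 := by
        rw [lintegral_const, Measure.restrict_apply_univ, Real.volume_Icc]
        have h2 : ENNReal.ofReal (l - -l) = 2 * ENNReal.ofReal l := by
          rw [sub_neg_eq_add, ← two_mul, ENNReal.ofReal_mul (by norm_num)]
          norm_num
        rw [h2]
        push_cast
        ring

lemma good_sin {J : Set ℝ} (hJ : MeasurableSet J) (hinj : InjOn Real.sin J)
    (hs : ∀ θ ∈ J, 1 / 4 ≤ Real.cos θ ^ 2) : GoodS J := by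
  refine ⟨64, fun ρ l hρ hl g hg hgi hg2 => ?_⟩
  have h7 : (0 : ℝ) < √7 := by positivity
  have hρ0 : 0 < ρ := lt_of_lt_of_le (by positivity) hρ
  have hsub : Qs l ⊆ Icc (-l) l ×ˢ univ := by
    rintro X ⟨h1, -⟩
    exact ⟨abs_le.1 h1, mem_univ _⟩
  have hm := (meas_TA J ρ hg).enorm.pow_const 2
  have hline : ∀ X1 : ℝ, ∫⁻ X2 : ℝ, ‖TA J ρ g (X1, X2)‖ₑ ^ 2 ≤ 32 * ∫⁻ θ in J, ‖g θ‖ₑ ^ 2 := by
    intro X1
    set f : ℝ → ℂ := fun θ => cexp (-(I * ((ρ * (X1 * Real.cos θ) : ℝ) : ℂ))) * g θ with hf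
    have hfn : ∀ θ, ‖f θ‖ₑ = ‖g θ‖ₑ := fun θ => by
      simp only [hf]
      rw [enorm_mul, phase_enorm, one_mul]
    have hfi : IntegrableOn f J :=
      hgi.bdd_mul (c := 1) (by fun_prop) (ae_of_all _ fun x => (phase_norm _).le)
    have h1 := planch_arc (φ := fun θ => ρ * Real.sin θ) (φ' := fun θ => ρ * Real.cos θ) hJ
      (fun θ _ => ((Real.hasDerivAt_sin θ).const_mul ρ).hasDerivWithinAt (s := J))
      (fun x hx y hy hxy => hinj hx hy (mul_left_cancel₀ hρ0.ne' hxy)) (c := ρ / 2)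
      (by positivity) (fun θ hθ => by
        have h2 := hs θ hθ
        have h3 : 1 / 2 ≤ |Real.cos θ| := by
          rw [← abs_of_pos (by norm_num : (0 : ℝ) < 1 / 2), ← sq_le_sq]
          linarith
        rw [abs_mul, abs_of_pos hρ0]
        nlinarith) hfi (by simpa only [hfn] using hg2)
    simp only [hfn] at h1
    refine le_trans (le_of_eq ?_) (h1.trans (mul_le_mul' ?_ le_rfl))
    · refine lintegral_congr fun X2 => ?_
      congr 2
      unfold TA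
      refine integral_congr_ae (ae_of_all _ fun θ => ?_)
      simp only [hf, dt]
      rw [← mul_assoc, ← Complex.exp_add]
      congr 2
      push_cast
      ring
    · have h2 := const_bound hρ (le_refl (ρ / 2))
      calc ENNReal.ofReal (2 * π / (ρ / 2)) ≤ ENNReal.ofReal 32 := ENNReal.ofReal_le_ofReal h2
        _ = 32 := by norm_num
  calc ∫⁻ X in Qs l, ‖TA J ρ g X‖ₑ ^ 2 ≤ ∫⁻ X in Icc (-l) l ×ˢ univ, ‖TA J ρ g X‖ₑ ^ 2 :=
        lintegral_mono_set hsub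
    _ = ∫⁻ X1 in Icc (-l) l, ∫⁻ X2 : ℝ, ‖TA J ρ g (X1, X2)‖ₑ ^ 2 := by
        rw [Measure.volume_eq_prod, ← Measure.prod_restrict, Measure.restrict_univ,
          lintegral_prod _ hm.aemeasurable]
    _ ≤ ∫⁻ _X1 in Icc (-l) l, 32 * ∫⁻ θ in J, ‖g θ‖ₑ ^ 2 := lintegral_mono fun X2 => hline X2
    _ = (64 : ℝ≥0) * ENNReal.ofReal l * ∫⁻ θ in J, ‖g θ‖ₑ ^ 2 := by
        rw [lintegral_const, Measure.restrict_apply_univ, Real.volume_Icc]
        have h2 : ENNReal.ofReal (l - -l) = 2 * ENNReal.ofReal l := by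
          rw [sub_neg_eq_add, ← two_mul, ENNReal.ofReal_mul (by norm_num)]
          norm_num
        rw [h2]
        push_cast
        ring

/-- the Agmon-Hormander bound for the circle -/
lemma good_circle : GoodS (Ioo (-π) π) := by
  have hA : MeasurableSet {θ : ℝ | 1 / 2 ≤ Real.sin θ ^ 2} :=
    measurableSet_le measurable_const (by fun_prop)
  refine good_split hA ?_ ?_
  · refine good_split (A := Ici 0) measurableSet_Ici ?_ ?_
    · refine good_cos ((measurableSet_Ioo.inter hA).inter measurableSet_Ici) ?_ ?_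
      · refine Real.injOn_cos.mono ?_
        rintro θ ⟨⟨h1, -⟩, h3⟩
        exact ⟨h3, h1.2.le⟩
      · rintro θ ⟨⟨-, h2⟩, -⟩
        have : 1 / 2 ≤ Real.sin θ ^ 2 := h2
        linarith
    · refine good_cos ((measurableSet_Ioo.inter hA).diff measurableSet_Ici) ?_ ?_
      · rintro x ⟨⟨h1, -⟩, h3⟩ y ⟨⟨k1, -⟩, k3⟩ hxy
        rw [mem_Ici, not_le] at h3 k3
        have h4 := Real.injOn_cos (x₁ := -x) (x₂ := -y) ⟨by linarith, by linarith [h1.1]⟩
          ⟨by linarith, by linarith [k1.1]⟩ (by rw [Real.cos_neg, Real.cos_neg]; exact hxy)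
        linarith
      · rintro θ ⟨⟨-, h2⟩, -⟩
        have : 1 / 2 ≤ Real.sin θ ^ 2 := h2
        linarith
  · have hc : ∀ θ, ¬ 1 / 2 ≤ Real.sin θ ^ 2 → 1 / 4 ≤ Real.cos θ ^ 2 := by
      intro θ h
      have h2 := Real.sin_sq_add_cos_sq θ
      linarith
    refine good_split (A := Iic (π / 2)) measurableSet_Iic ?_ ?_
    · refine good_split (A := Ici (-(π / 2))) measurableSet_Ici ?_ ?_
      · refine good_sin (((measurableSet_Ioo.diff hA).inter measurableSet_Iic).inter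
          measurableSet_Ici) ?_ ?_
        · refine Real.injOn_sin.mono ?_
          rintro θ ⟨⟨-, h2⟩, h3⟩
          exact ⟨h3, h2⟩
        · rintro θ ⟨⟨⟨-, h2⟩, -⟩, -⟩
          exact hc θ h2
      · refine good_sin (((measurableSet_Ioo.diff hA).inter measurableSet_Iic).diff
          measurableSet_Ici) ?_ ?_
        · rintro x ⟨⟨⟨h1, -⟩, -⟩, h3⟩ y ⟨⟨⟨k1, -⟩, -⟩, k3⟩ hxy
          rw [mem_Ici, not_le] at h3 k3
          have h4 := Real.injOn_sin (x₁ := -π - x) (x₂ := -π - y)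
            ⟨by linarith, by linarith [h1.1, Real.pi_pos]⟩
            ⟨by linarith, by linarith [k1.1, Real.pi_pos]⟩ (by
              have e : ∀ z : ℝ, Real.sin (-π - z) = Real.sin z := fun z => by
                rw [show -π - z = -(z + π) by ring, Real.sin_neg, Real.sin_add_pi, neg_neg]
              rw [e, e]
              exact hxy)
          linarith
        · rintro θ ⟨⟨⟨-, h2⟩, -⟩, -⟩
          exact hc θ h2
    · refine good_sin ((measurableSet_Ioo.diff hA).diff measurableSet_Iic) ?_ ?_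
      · rintro x ⟨⟨h1, -⟩, h3⟩ y ⟨⟨k1, -⟩, k3⟩ hxy
        rw [mem_Iic, not_le] at h3 k3
        have h4 := Real.injOn_sin (x₁ := π - x) (x₂ := π - y)
          ⟨by linarith [h1.2, Real.pi_pos], by linarith⟩
          ⟨by linarith [k1.2, Real.pi_pos], by linarith⟩ (by
            rw [Real.sin_pi_sub, Real.sin_pi_sub]
            exact hxy)
        linarith
      · rintro θ ⟨⟨-, h2⟩, -⟩
        exact hc θ h2

end Pool.Agent.TH11.MZ
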