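import Mathlib
import Pool.Agent.TH407.MZ.Defs
import Pool.Agent.TH11.MZ.Arc

set_option autoImplicit false

/-! The square integral of the extension operator of the zone over balls. -/

namespace Pool.Agent.TH11.MZ

open MeasureTheory Set Complex
open scoped ENNReal NNReal Real ComplexConjugate
open Pool.Agent.TH407 Pool.Agent.TH407.MZ
open Pool.Agent.TH407.MV (dt)

lemma etz_nonneg (h : ℝ) : 0 ≤ etz h :=
  mul_nonneg (Real.smoothTransition.nonneg _) (Real.smoothTransition.nonneg _)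

lemma etz_le_one (h : ℝ) : etz h ≤ 1 :=
  mul_le_one₀ (Real.smoothTransition.le_one _) (Real.smoothTransition.nonneg _)
    (Real.smoothTransition.le_one _)

lemma etz_zero {h : ℝ} (hh : 3 / 4 < |h|) : etz h = 0 := by
  unfold etz
  rcases lt_abs.1 hh with h1 | h1
  · rw [Real.smoothTransition.zero_of_nonpos (x := 3 - 4 * h) (by linarith), zero_mul]
  · rw [Real.smoothTransition.zero_of_nonpos (x := 3 + 4 * h) (by linarith), mul_zero]

lemma continuous_etz : Continuous etz := by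
  unfold etz
  exact (Real.smoothTransition.continuous.comp (by fun_prop)).mul
    (Real.smoothTransition.continuous.comp (by fun_prop))

lemma enorm_etz (h : ℝ) : ‖(etz h : ℂ)‖ₑ ≤ 1 := by
  rw [← ofReal_norm, Complex.norm_real, Real.norm_of_nonneg (etz_nonneg h)]
  exact ENNReal.ofReal_le_one.2 (etz_le_one h)

/-- the square integral -/
noncomputable def N2 (b : ℝ → ℝ → ℂ) : ℝ≥0∞ := ∫⁻ s : ℝ, ∫⁻ θ in Ioo (-π) π, ‖b s θ‖ₑ ^ 2

variable {b : ℝ → ℝ → ℂ}

lemma N2_eq (hb : Measurable (Function.uncurry b)) :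
    ∫⁻ p : ℝ × ℝ, ‖b p.1 p.2‖ₑ ^ 2 ∂mZ = N2 b := by
  have h1 : Measurable (fun p : ℝ × ℝ => ‖b p.1 p.2‖ₑ ^ 2) := hb.enorm.pow_const 2
  exact lintegral_prod _ h1.aemeasurable

/-- the strip -/
def St : Set (ℝ × ℝ) := Icc (-(1 / 4)) (5 / 4) ×ˢ univ

lemma meas_St : MeasurableSet St := measurableSet_Icc.prod MeasurableSet.univ

lemma mZ_St : mZ St ≤ 12 := by
  unfold St mZ
  rw [Measure.prod_prod, Measure.restrict_apply_univ, Real.volume_Icc, Real.volume_Ioo,
    ← ENNReal.ofReal_mul (by norm_num)]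
  have h : (5 / 4 - -(1 / 4)) * (π - -π) ≤ (12 : ℝ) := by
    have := Real.pi_lt_four
    linarith
  calc ENNReal.ofReal ((5 / 4 - -(1 / 4)) * (π - -π)) ≤ ENNReal.ofReal 12 :=
        ENNReal.ofReal_le_ofReal h
    _ = 12 := by norm_num

/-- the cut-off density -/
noncomputable def fz (b : ℝ → ℝ → ℂ) (p : ℝ × ℝ) : ℂ := (etz (p.1 - 1 / 2) : ℂ) * b p.1 p.2

lemma meas_fz (hb : Measurable (Function.uncurry b)) : Measurable (fz b) := by
  unfold fz
  apply Measurable.mul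
  · have h1 : Measurable (fun p : ℝ × ℝ => etz (p.1 - 1 / 2)) :=
      continuous_etz.measurable.comp (measurable_fst.sub_const _)
    exact Complex.measurable_ofReal.comp h1
  · exact hb

lemma enorm_fz (p : ℝ × ℝ) : ‖fz b p‖ₑ ≤ St.indicator 1 p * ‖b p.1 p.2‖ₑ := by
  unfold fz
  rw [enorm_mul]
  by_cases hp : p ∈ St
  · rw [indicator_of_mem hp, Pi.one_apply]
    exact mul_le_mul' (enorm_etz _) le_rfl
  · rw [indicator_of_notMem hp]
    have h1 : 3 / 4 < |p.1 - 1 / 2| := by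
      by_contra h
      rw [not_lt, abs_le] at h
      exact hp ⟨⟨by linarith [h.1], by linarith [h.2]⟩, mem_univ _⟩
    rw [etz_zero h1]
    simp

lemma lint_fz (hb : Measurable (Function.uncurry b)) :
    (∫⁻ p, ‖fz b p‖ₑ ∂mZ) ^ 2 ≤ 12 * N2 b := by
  have h1 : ∫⁻ p, ‖fz b p‖ₑ ∂mZ ≤ ∫⁻ p, St.indicator 1 p * ‖b p.1 p.2‖ₑ ∂mZ :=
    lintegral_mono fun p => enorm_fz p
  have hm1 : Measurable (St.indicator (1 : ℝ × ℝ → ℝ≥0∞)) := measurable_one.indicator meas_St
  have hm2 : Measurable (fun p : ℝ × ℝ => ‖b p.1 p.2‖ₑ) := hb.enorm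
  refine (pow_le_pow_left' h1 2).trans ((cs hm1.aemeasurable hm2.aemeasurable).trans ?_)
  rw [N2_eq hb]
  refine mul_le_mul' ?_ le_rfl
  have h2 : ∀ p, St.indicator (1 : ℝ × ℝ → ℝ≥0∞) p ^ 2 = St.indicator 1 p := by
    intro p
    by_cases hp : p ∈ St
    · rw [indicator_of_mem hp]
      simp
    · rw [indicator_of_notMem hp]
      simp
  simp only [h2]
  rw [lintegral_indicator_one meas_St]
  exact mZ_St

lemma int_fz (hb : Measurable (Function.uncurry b)) (hN : N2 b ≠ ∞) : Integrable (fz b) mZ := by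
  refine ⟨(meas_fz hb).aestronglyMeasurable, ?_⟩
  rw [HasFiniteIntegral]
  by_contra h
  rw [not_lt, top_le_iff] at h
  have h1 := lint_fz hb
  rw [h] at h1
  have h2 : 12 * N2 b < ∞ := ENNReal.mul_lt_top (by norm_num) (lt_top_iff_ne_top.2 hN)
  simp only [ne_eq, OfNat.ofNat_ne_zero, not_false_eq_true, ENNReal.top_pow, top_le_iff] at h1
  exact h2.ne h1

/-- the inner integral -/
noncomputable def BX (b : ℝ → ℝ → ℂ) (X : ℝ × ℝ) (s : ℝ) : ℂ :=
  ∫ θ in Ioo (-π) π, cexp (-(I * ((√(1 - (s - 1 / 2) ^ 2) * dt X θ : ℝ) : ℂ))) * fz b (s, θ)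

lemma BX_eq (X : ℝ × ℝ) (s : ℝ) : BX b X s =
    (etz (s - 1 / 2) : ℂ) * TA (Ioo (-π) π) (√(1 - (s - 1 / 2) ^ 2)) (b s) X := by
  unfold BX TA fz
  rw [← integral_const_mul]
  refine integral_congr_ae (ae_of_all _ fun θ => ?_)
  simp only
  ring

lemma meas_sq : Measurable (fun s : ℝ => √(1 - (s - 1 / 2) ^ 2)) := by
  have : Continuous (fun s : ℝ => √(1 - (s - 1 / 2) ^ 2)) := by fun_prop
  exact this.measurable

lemma int_F0 (hb : Measurable (Function.uncurry b)) (hN : N2 b ≠ ∞) (X : ℝ × ℝ) :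
    Integrable (fun p : ℝ × ℝ =>
      cexp (-(I * ((√(1 - (p.1 - 1 / 2) ^ 2) * dt X p.2 : ℝ) : ℂ))) * fz b p) mZ := by
  refine (int_fz hb hN).bdd_mul (c := 1) ?_ (ae_of_all _ fun p => (phase_norm _).le)
  have h1 : Measurable (fun p : ℝ × ℝ => √(1 - (p.1 - 1 / 2) ^ 2) * dt X p.2) := by
    apply (meas_sq.comp measurable_fst).mul
    unfold dt
    fun_prop
  have h2 : Measurable (fun x : ℝ => cexp (-(I * (x : ℂ)))) := by fun_prop
  exact (h2.comp h1).aestronglyMeasurable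

lemma int_BX (hb : Measurable (Function.uncurry b)) (hN : N2 b ≠ ∞) (X : ℝ × ℝ) :
    Integrable (BX b X) :=
  (int_F0 hb hN X).integral_prod_left

lemma EZ_eq (hb : Measurable (Function.uncurry b)) (hN : N2 b ≠ ∞) (X : ℝ × ℝ) (t : ℝ) :
    EZ b X t = ∫ s : ℝ, cexp (-(I * ((t * (s - 1 / 2) : ℝ) : ℂ))) * BX b X s := by
  have h0 : EZ b X t = ∫ p : ℝ × ℝ, cexp (-(I * ((t * (p.1 - 1 / 2) : ℝ) : ℂ))) *
      (cexp (-(I * ((√(1 - (p.1 - 1 / 2) ^ 2) * dt X p.2 : ℝ) : ℂ))) * fz b p) ∂mZ := by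
    unfold EZ fz
    refine integral_congr_ae (ae_of_all _ fun p => ?_)
    simp only
    rw [← mul_assoc (cexp _) (cexp _), ← Complex.exp_add]
    congr 2
    push_cast
    ring
  have hi : Integrable (fun p : ℝ × ℝ => cexp (-(I * ((t * (p.1 - 1 / 2) : ℝ) : ℂ))) *
      (cexp (-(I * ((√(1 - (p.1 - 1 / 2) ^ 2) * dt X p.2 : ℝ) : ℂ))) * fz b p)) mZ := by
    refine (int_F0 hb hN X).bdd_mul (c := 1) ?_ (ae_of_all _ fun p => (phase_norm _).le)
    have h1 : Measurable (fun p : ℝ × ℝ => cexp (-(I * ((t * (p.1 - 1 / 2) : ℝ) : ℂ)))) := by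
      fun_prop
    exact h1.aestronglyMeasurable
  rw [h0]
  unfold mZ at hi ⊢
  rw [integral_prod _ hi]
  refine integral_congr_ae (ae_of_all _ fun s => ?_)
  simp only [BX]
  rw [integral_const_mul]

lemma BX_sq (hb : Measurable (Function.uncurry b)) (X : ℝ × ℝ) (s : ℝ) :
    ‖BX b X s‖ₑ ^ 2 ≤ 8 * ∫⁻ θ in Ioo (-π) π, ‖b s θ‖ₑ ^ 2 := by
  have hbs : Measurable (b s) := hb.comp measurable_prodMk_left
  have h1 : ‖BX b X s‖ₑ ≤ ∫⁻ θ in Ioo (-π) π, 1 * ‖b s θ‖ₑ := by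
    unfold BX
    refine (enorm_integral_le_lintegral_enorm _).trans (lintegral_mono fun θ => ?_)
    rw [enorm_mul, phase_enorm, one_mul]
    unfold fz
    rw [enorm_mul]
    exact mul_le_mul' (enorm_etz _) le_rfl
  refine (pow_le_pow_left' h1 2).trans
    ((cs (F := fun _ => 1) aemeasurable_const hbs.enorm.aemeasurable).trans ?_)
  refine mul_le_mul' ?_ le_rfl
  simp only [one_pow]
  rw [lintegral_one, Measure.restrict_apply_univ, Real.volume_Ioo]
  have h : π - -π ≤ (8 : ℝ) := by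
    have := Real.pi_lt_four
    linarith
  calc ENNReal.ofReal (π - -π) ≤ ENNReal.ofReal 8 := ENNReal.ofReal_le_ofReal h
    _ = 8 := by norm_num

lemma time (hb : Measurable (Function.uncurry b)) (hN : N2 b ≠ ∞) (X : ℝ × ℝ) :
    ∫⁻ t : ℝ, ‖EZ b X t‖ₑ ^ 2 ≤ 8 * ∫⁻ s, ‖BX b X s‖ₑ ^ 2 := by
  have hfin : ∫⁻ s, ‖BX b X s‖ₑ ^ 2 ≠ ∞ := by
    have h1 : ∫⁻ s, ‖BX b X s‖ₑ ^ 2 ≤ 8 * N2 b := by
      refine (lintegral_mono fun s => BX_sq hb X s).trans (le_of_eq ?_)
      rw [lintegral_const_mul' _ _ (by norm_num)]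
      rfl
    exact (h1.trans_lt (ENNReal.mul_lt_top (by norm_num) (lt_top_iff_ne_top.2 hN))).ne
  have h1 := planch_arc (φ := fun s => s - 1 / 2) (φ' := fun _ => 1) MeasurableSet.univ
    (fun x _ => ((hasDerivAt_id x).sub_const _).hasDerivWithinAt)
    (fun x _ y _ hxy => by simpa using hxy) one_pos (fun x _ => by simp)
    (f := BX b X) (int_BX hb hN X).integrableOn (by
      rw [Measure.restrict_univ]
      exact hfin)
  simp only [Measure.restrict_univ] at h1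
  simp only [EZ_eq hb hN]
  refine h1.trans (mul_le_mul' ?_ le_rfl)
  have h : 2 * π / 1 ≤ (8 : ℝ) := by
    have := Real.pi_lt_four
    linarith
  calc ENNReal.ofReal (2 * π / 1) ≤ ENNReal.ofReal 8 := ENNReal.ofReal_le_ofReal h
    _ = 8 := by norm_num

lemma meas_BX (hb : Measurable (Function.uncurry b)) :
    Measurable (fun q : (ℝ × ℝ) × ℝ => BX b q.1 q.2) := by
  have hm : StronglyMeasurable (fun p : ((ℝ × ℝ) × ℝ) × ℝ =>
      cexp (-(I * ((√(1 - (p.1.2 - 1 / 2) ^ 2) * dt p.1.1 p.2 : ℝ) : ℂ))) * fz b (p.1.2, p.2)) := by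
    apply Measurable.stronglyMeasurable
    apply Measurable.mul
    · have h1 : Measurable (fun p : ((ℝ × ℝ) × ℝ) × ℝ =>
          √(1 - (p.1.2 - 1 / 2) ^ 2) * dt p.1.1 p.2) := by
        have h3 : Measurable (fun p : ((ℝ × ℝ) × ℝ) × ℝ => √(1 - (p.1.2 - 1 / 2) ^ 2)) :=
          meas_sq.comp (measurable_snd.comp measurable_fst)
        apply h3.mul
        unfold dt
        fun_prop
      have h2 : Measurable (fun x : ℝ => cexp (-(I * (x : ℂ)))) := by fun_prop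
      exact h2.comp h1
    · have h4 : Measurable (fun p : ((ℝ × ℝ) × ℝ) × ℝ => (p.1.2, p.2)) := by fun_prop
      exact (meas_fz hb).comp h4
  have := hm.integral_prod_right' (ν := (volume : Measure ℝ).restrict (Ioo (-π) π))
  exact this.measurable

lemma meas_EZ (hb : Measurable (Function.uncurry b)) :
    Measurable (fun ξ : (ℝ × ℝ) × ℝ => EZ b ξ.1 ξ.2) := by
  have hm : StronglyMeasurable (fun p : ((ℝ × ℝ) × ℝ) × (ℝ × ℝ) =>
      cexp (-(I * ((√(1 - (p.2.1 - 1 / 2) ^ 2) * dt p.1.1 p.2.2 + (p.2.1 - 1 / 2) * p.1.2 : ℝ) :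
        ℂ))) * fz b p.2) := by
    apply Measurable.stronglyMeasurable
    apply Measurable.mul
    · have h1 : Measurable (fun p : ((ℝ × ℝ) × ℝ) × (ℝ × ℝ) =>
          √(1 - (p.2.1 - 1 / 2) ^ 2) * dt p.1.1 p.2.2 + (p.2.1 - 1 / 2) * p.1.2) := by
        have h3 : Measurable (fun p : ((ℝ × ℝ) × ℝ) × (ℝ × ℝ) => √(1 - (p.2.1 - 1 / 2) ^ 2)) :=
          meas_sq.comp (measurable_fst.comp measurable_snd)
        have h5 : Measurable (fun p : ((ℝ × ℝ) × ℝ) × (ℝ × ℝ) => dt p.1.1 p.2.2) := by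
          unfold dt
          fun_prop
        have h6 : Measurable (fun p : ((ℝ × ℝ) × ℝ) × (ℝ × ℝ) => (p.2.1 - 1 / 2) * p.1.2) := by
          fun_prop
        exact (h3.mul h5).add h6
      have h2 : Measurable (fun x : ℝ => cexp (-(I * (x : ℂ)))) := by fun_prop
      exact h2.comp h1
    · exact (meas_fz hb).comp measurable_snd
  have : SFinite mZ := by
    unfold mZ
    infer_instance
  have := hm.integral_prod_right' (ν := mZ)
  exact this.measurable

theorem ballZ : BallZ := by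
  obtain ⟨C, hC⟩ := good_circle
  refine ⟨8 * (C + 1) + 12, fun b hb hN => ?_⟩
  have hN' : N2 b ≠ ∞ := hN
  change Integrable (fz b) mZ ∧ (∀ X t, ‖EZ b X t‖ₑ ^ 2 ≤ _ * N2 b) ∧ ∀ l : ℝ, 1 ≤ l →
    ∫⁻ ξ in {ξ : (ℝ × ℝ) × ℝ | nz ξ ≤ l}, ‖EZ b ξ.1 ξ.2‖ₑ ^ 2 ≤ _ * ENNReal.ofReal l * N2 b
  refine ⟨int_fz hb hN', fun X t => ?_, fun l hl => ?_⟩
  · have h1 : ‖EZ b X t‖ₑ ≤ ∫⁻ p, ‖fz b p‖ₑ ∂mZ := by
      unfold EZ
      refine (enorm_integral_le_lintegral_enorm _).trans (lintegral_mono fun p => ?_)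
      rw [enorm_mul, phase_enorm, one_mul]
      exact le_rfl
    refine (pow_le_pow_left' h1 2).trans ((lint_fz hb).trans ?_)
    refine mul_le_mul' ?_ le_rfl
    push_cast
    exact le_add_self
  · have hsub : {ξ : (ℝ × ℝ) × ℝ | nz ξ ≤ l} ⊆ Qs l ×ˢ univ := by
      rintro ξ hξ
      have h1 : 1 + |ξ.1.1| + |ξ.1.2| + |ξ.2| ≤ l := hξ
      have h2 := abs_nonneg ξ.1.1
      have h3 := abs_nonneg ξ.1.2
      have h4 := abs_nonneg ξ.2
      exact ⟨⟨by linarith, by linarith⟩, mem_univ _⟩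
    have hm := (meas_EZ hb).enorm.pow_const 2
    have hmB := (meas_BX hb).enorm.pow_const 2
    have hs : ∀ s : ℝ, ∫⁻ X in Qs l, ‖BX b X s‖ₑ ^ 2 ≤
        ((C + 1 : ℝ≥0) : ℝ≥0∞) * ENNReal.ofReal l * ∫⁻ θ in Ioo (-π) π, ‖b s θ‖ₑ ^ 2 := by
      intro s
      have hbs : Measurable (b s) := hb.comp measurable_prodMk_left
      by_cases h3 : 3 / 4 < |s - 1 / 2|
      · have h4 : ∀ X, ‖BX b X s‖ₑ ^ 2 = 0 := by
          intro X
          rw [BX_eq, etz_zero h3]
          simp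
        simp only [h4, lintegral_zero]
        exact zero_le
      · rw [not_lt] at h3
        by_cases hfin : ∫⁻ θ in Ioo (-π) π, ‖b s θ‖ₑ ^ 2 = ∞
        · rw [hfin, ENNReal.mul_top]
          · exact le_top
          · have h5 : ((C + 1 : ℝ≥0) : ℝ≥0∞) ≠ 0 := by
              rw [Ne, ENNReal.coe_eq_zero]
              positivity
            have h6 : ENNReal.ofReal l ≠ 0 := by
              rw [Ne, ENNReal.ofReal_eq_zero, not_le]
              linarith
            exact mul_ne_zero h5 h6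
        · have hρ : √7 / 4 ≤ √(1 - (s - 1 / 2) ^ 2) := by
            apply Real.le_sqrt_of_sq_le
            rw [div_pow, Real.sq_sqrt (by norm_num)]
            have h5 : (s - 1 / 2) ^ 2 ≤ (3 / 4) ^ 2 := sq_le_sq' (by linarith [(abs_le.1 h3).1])
              (abs_le.1 h3).2
            linarith
          have hint : IntegrableOn (b s) (Ioo (-π) π) := by
            refine ⟨hbs.aestronglyMeasurable, ?_⟩
            rw [HasFiniteIntegral]
            have h6 := cs (μ := volume.restrict (Ioo (-π) π)) (F := fun _ => 1)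
              aemeasurable_const hbs.enorm.aemeasurable
            simp only [one_mul, one_pow] at h6
            rw [lintegral_one, Measure.restrict_apply_univ, Real.volume_Ioo] at h6
            by_contra h7
            rw [not_lt, top_le_iff] at h7
            rw [h7] at h6
            have h8 : ENNReal.ofReal (π - -π) * ∫⁻ θ in Ioo (-π) π, ‖b s θ‖ₑ ^ 2 < ∞ :=
              ENNReal.mul_lt_top ENNReal.ofReal_lt_top (lt_top_iff_ne_top.2 hfin)
            simp only [ne_eq, OfNat.ofNat_ne_zero, not_false_eq_true, ENNReal.top_pow,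
              top_le_iff] at h6
            exact h8.ne h6
          have h7 := hC _ l hρ hl (b s) hbs hint hfin
          have h8 : ∫⁻ X in Qs l, ‖BX b X s‖ₑ ^ 2 ≤
              ∫⁻ X in Qs l, ‖TA (Ioo (-π) π) (√(1 - (s - 1 / 2) ^ 2)) (b s) X‖ₑ ^ 2 := by
            refine lintegral_mono fun X => ?_
            rw [BX_eq, enorm_mul, mul_pow]
            refine mul_le_of_le_one_left' ?_
            exact pow_le_one₀ zero_le (enorm_etz _)
          refine (h8.trans h7).trans ?_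
          gcongr
          exact le_self_add
    calc ∫⁻ ξ in {ξ : (ℝ × ℝ) × ℝ | nz ξ ≤ l}, ‖EZ b ξ.1 ξ.2‖ₑ ^ 2
        ≤ ∫⁻ ξ in Qs l ×ˢ univ, ‖EZ b ξ.1 ξ.2‖ₑ ^ 2 := lintegral_mono_set hsub
      _ = ∫⁻ X in Qs l, ∫⁻ t : ℝ, ‖EZ b X t‖ₑ ^ 2 := by
          rw [Measure.volume_eq_prod, ← Measure.prod_restrict, Measure.restrict_univ,
            lintegral_prod _ hm.aemeasurable]
      _ ≤ ∫⁻ X in Qs l, 8 * ∫⁻ s, ‖BX b X s‖ₑ ^ 2 := lintegral_mono fun X => time hb hN' X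
      _ = 8 * ∫⁻ s, ∫⁻ X in Qs l, ‖BX b X s‖ₑ ^ 2 := by
          rw [lintegral_const_mul' _ _ (by norm_num),
            lintegral_lintegral_swap (f := fun X s => ‖BX b X s‖ₑ ^ 2) hmB.aemeasurable]
      _ ≤ 8 * ∫⁻ s, ((C + 1 : ℝ≥0) : ℝ≥0∞) * ENNReal.ofReal l *
            ∫⁻ θ in Ioo (-π) π, ‖b s θ‖ₑ ^ 2 :=
          mul_le_mul' le_rfl (lintegral_mono hs)
      _ = 8 * (((C + 1 : ℝ≥0) : ℝ≥0∞) * ENNReal.ofReal l * N2 b) := by
          rw [lintegral_const_mul' _ _ (ENNReal.mul_ne_top ENNReal.coe_ne_top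
            ENNReal.ofReal_ne_top)]
          rfl
      _ ≤ _ := by
          rw [← mul_assoc, ← mul_assoc]
          gcongr
          push_cast
          exact le_self_add

end Pool.Agent.TH11.MZ
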